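import Pool.Agent.Lib.MP_49fa77_co.H30.Iface

/-!
# CL: many components
-/

set_option autoImplicit false

namespace FT58.AS.H02

open Real MeasureTheory Set Metric Filter Relation FT58 FT58.AS

lemma dt_abs_le (x e : ℂ) : |dt x e| ≤ ‖x‖ * ‖e‖ := by
  have h : dt x e = (x * (starRingEnd ℂ) e).re := by
    simp [dt, Complex.mul_re]
  rw [h]
  calc |(x * (starRingEnd ℂ) e).re| ≤ ‖x * (starRingEnd ℂ) e‖ := Complex.abs_re_le_norm _
    _ = ‖x‖ * ‖e‖ := by rw [norm_mul, RCLike.norm_conj]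

lemma dt_sub_l (x y e : ℂ) : dt (x - y) e = dt x e - dt y e := by
  simp only [dt, Complex.sub_re, Complex.sub_im]; ring

lemma dt_sub_r (x e f : ℂ) : dt x (e - f) = dt x e - dt x f := by
  simp only [dt, Complex.sub_re, Complex.sub_im]; ring

lemma fin_pos {α : Type} (s : Finset α) (f : α → ℝ) (h : ∀ x ∈ s, 0 < f x) :
    ∃ η : ℝ, 0 < η ∧ ∀ x ∈ s, η ≤ f x := by
  classical
  induction s using Finset.induction_on with
  | empty => exact ⟨1, one_pos, fun x hx => absurd hx (Finset.notMem_empty x)⟩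
  | insert a s ha ih =>
    obtain ⟨η, h1, h2⟩ := ih (fun x hx => h x (Finset.mem_insert_of_mem hx))
    refine ⟨min η (f a), lt_min h1 (h a (Finset.mem_insert_self a s)), fun x hx => ?_⟩
    rcases Finset.mem_insert.1 hx with rfl | hx
    · exact min_le_right _ _
    · exact (min_le_left _ _).trans (h2 x hx)

/-- a generic direction close to the given one -/
lemma direction (hDI : DiS) {n : ℕ} {c : Fin n → ℂ} {δ : ℝ} {e : ℂ} {S : Finset ℂ} {cl : ℂ → ℂ}
    {p : ℂ → Fin n → ℂ} {t : ℂ → ℂ} (h : Lb c δ e S cl p t) :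
    ∃ e' : ℂ, (∀ x ∈ S, ∀ y ∈ S, x ≠ y → dt (x - y) e' ≠ 0) ∧
      ∀ x ∈ S, ∀ y ∈ S, cl x ≠ cl y → 8 * δ * ‖e'‖ < |dt (t (cl x) - t (cl y)) e'| := by
  classical
  have hδ := h.pos
  let f : ℂ × ℂ → ℝ := fun z =>
    (|dt (t (cl z.1) - t (cl z.2)) e| - 8 * δ * ‖e‖) / (‖t (cl z.1) - t (cl z.2)‖ + 8 * δ)
  have hden : ∀ z : ℂ × ℂ, 0 < ‖t (cl z.1) - t (cl z.2)‖ + 8 * δ := fun z => by positivity
  obtain ⟨η, hη0, hη⟩ := fin_pos ((S ×ˢ S).filter fun z => cl z.1 ≠ cl z.2) f (by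
    intro z hz
    rw [Finset.mem_filter, Finset.mem_product] at hz
    exact div_pos (sub_pos.2 (h.dir z.1 hz.1.1 z.2 hz.1.2 hz.2)) (hden z))
  obtain ⟨e', he', hg⟩ := hDI S e η hη0
  refine ⟨e', hg, fun x hx y hy hxy => ?_⟩
  have h1 := hη (x, y) (by
    rw [Finset.mem_filter, Finset.mem_product]; exact ⟨⟨hx, hy⟩, hxy⟩)
  have h2 : η * (‖t (cl x) - t (cl y)‖ + 8 * δ)
      ≤ |dt (t (cl x) - t (cl y)) e| - 8 * δ * ‖e‖ := by
    rw [le_div_iff₀ (hden (x, y))] at h1; exact h1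
  have h3 : |dt (t (cl x) - t (cl y)) e| ≤ |dt (t (cl x) - t (cl y)) e'|
      + ‖t (cl x) - t (cl y)‖ * ‖e' - e‖ := by
    have h4 : dt (t (cl x) - t (cl y)) e = dt (t (cl x) - t (cl y)) e'
        - dt (t (cl x) - t (cl y)) (e' - e) := by rw [dt_sub_r]; ring
    rw [h4]
    exact (abs_sub _ _).trans (add_le_add le_rfl (dt_abs_le _ _))
  have h5 : ‖e'‖ ≤ ‖e‖ + ‖e' - e‖ := by
    have := norm_add_le e (e' - e); rwa [add_sub_cancel] at this
  have h6 : ‖t (cl x) - t (cl y)‖ * ‖e' - e‖ + 8 * δ * ‖e' - e‖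
      < η * (‖t (cl x) - t (cl y)‖ + 8 * δ) := by
    have := mul_lt_mul_of_pos_right he' (hden (x, y))
    simp only at this
    linarith
  have h7 : 8 * δ * ‖e'‖ ≤ 8 * δ * ‖e‖ + 8 * δ * ‖e' - e‖ := by
    have := mul_le_mul_of_nonneg_left h5 (by positivity : (0 : ℝ) ≤ 8 * δ)
    linarith
  linarith

lemma Hg_symm {S : Finset ℂ} {c q : ℂ} (h : Hg S c q) : Hg S q c := by
  obtain ⟨h1, h2, h3⟩ := h
  refine ⟨h2, h1, ?_⟩
  rcases h3 with h3 | h3 | h3
  · exact Or.inl (Se_symm h3)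
  · exact Or.inr (Or.inr h3)
  · exact Or.inr (Or.inl h3)

lemma Hg_rtg_symm {S : Finset ℂ} {c q : ℂ} (h : ReflTransGen (Hg S) c q) :
    ReflTransGen (Hg S) q c := by
  induction h with
  | refl => exact ReflTransGen.refl
  | tail _ hb ih => exact ReflTransGen.head (Hg_symm hb) ih

lemma Hs_Hg {S : Finset ℂ} {c q : ℂ} (h : ReflTransGen (Hs S) c q) :
    ReflTransGen (Hg S) c q := by
  induction h with
  | refl => exact ReflTransGen.refl
  | tail _ hb ih => exact ih.tail ⟨hb.1, hb.2.1, Or.inl hb.2.2⟩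

lemma Hg_mem {S : Finset ℂ} {a z : ℂ} (ha : a ∈ S) (h : ReflTransGen (Hg S) a z) : z ∈ S := by
  rcases ReflTransGen.cases_tail h with h | ⟨y, -, h⟩
  · rw [h]; exact ha
  · exact h.2.1

section main

variable {n : ℕ} {c : Fin n → ℂ} {δ : ℝ} {e : ℂ} {S : Finset ℂ} {cl : ℂ → ℂ}
  {p : ℂ → Fin n → ℂ} {t : ℂ → ℂ}

lemma p_mem (h : Lb c δ e S cl p t) {x : ℂ} (hx : x ∈ S) (i : Fin n) :
    p (cl x) i ∈ S ∧ cl (p (cl x) i) = cl x := (h.mem x hx _).2 ⟨i, rfl⟩

lemma path_up (hSP : SpS) (h : Lb c δ e S cl p t) {x : ℂ} (hx : x ∈ S) {i j : Fin n}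
    (hij : ReflTransGen (fun i j => ‖c i - c j‖ < 2) i j) :
    ReflTransGen (Hs S) (p (cl x) i) (p (cl x) j) := by
  induction hij with
  | refl => exact ReflTransGen.refl
  | tail _ hb ih =>
    refine ih.trans (hSP S _ (p_mem h hx _).1 _ (p_mem h hx _).1 ?_)
    have := (h.sh x hx _ _).2 hb
    rw [norm_sub_rev] at this
    exact this

lemma path_down (h : Lb c δ e S cl p t) {x : ℂ} (hx : x ∈ S) {i : Fin n} {z : ℂ}
    (hz : ReflTransGen (Hs S) (p (cl x) i) z) :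
    ∃ j, ReflTransGen (fun i j => ‖c i - c j‖ < 2) i j ∧ z = p (cl x) j := by
  induction hz with
  | refl => exact ⟨i, ReflTransGen.refl, rfl⟩
  | @tail y z _ hb ih =>
    obtain ⟨j, hj, rfl⟩ := ih
    obtain ⟨h1, h2, h3, -, h4⟩ := hb
    have h5 : cl (p (cl x) j) = cl x := (p_mem h hx j).2
    have h6 : cl z = cl x := by
      by_contra hne
      have := h.sep _ h1 _ h2 (by rw [h5]; exact Ne.symm hne)
      exact absurd h4 (not_lt.2 this)
    obtain ⟨k, rfl⟩ := (h.mem x hx z).1 ⟨h2, h6⟩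
    refine ⟨k, hj.tail ?_, rfl⟩
    have h7 : ‖p (cl x) j - p (cl x) k‖ < 2 := by rw [norm_sub_rev]; exact h4
    exact (h.sh x hx _ _).1 h7

lemma near_dt (h : Lb c δ e S cl p t) {x : ℂ} (hx : x ∈ S) (i : Fin n) (e' : ℂ) :
    |dt (p (cl x) i) e' - dt (t (cl x)) e' - dt (c i) e'| ≤ δ * ‖e'‖ := by
  rw [← dt_sub_l, ← dt_sub_l]
  exact (dt_abs_le _ _).trans
    (mul_le_mul_of_nonneg_right (h.near x hx i).le (norm_nonneg _))

/-- the main step: two different clusters, one of them higher -/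
lemma no_path (hSP : SpS) (hTB : TbS) (h : Lb c δ e S cl p t) {e' : ℂ}
    (hgen : ∀ x ∈ S, ∀ y ∈ S, x ≠ y → dt (x - y) e' ≠ 0) {i₀ j₀ : Fin n}
    (h0 : ReflTransGen (fun i j => ‖c i - c j‖ < 2) i₀ j₀)
    (hmax : ∀ i j, ReflTransGen (fun i j => ‖c i - c j‖ < 2) i j →
      dt (c i) e' - dt (c j) e' ≤ dt (c i₀) e' - dt (c j₀) e')
    {x y : ℂ} (hx : x ∈ S) (hy : y ∈ S)
    (hlev : 8 * δ * ‖e'‖ < dt (t (cl y) - t (cl x)) e')
    (hpath : ReflTransGen (Hg S) (p (cl x) i₀) (p (cl y) i₀)) : False := by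
  classical
  set a := p (cl x) i₀ with ha
  set b := p (cl y) i₀ with hb
  have haS : a ∈ S := (p_mem h hx i₀).1
  let C := S.filter fun z => ReflTransGen (Hg S) a z
  have hC : ∀ z, z ∈ C ↔ ReflTransGen (Hg S) a z := by
    intro z
    rw [Finset.mem_filter]
    exact ⟨fun hz => hz.2, fun hz => ⟨Hg_mem haS hz, hz⟩⟩
  have hCne : C.Nonempty := ⟨a, (hC a).2 ReflTransGen.refl⟩
  obtain ⟨u, hu, humax⟩ := Finset.exists_max_image C (fun z => dt z e') hCne
  obtain ⟨d, hd, hdmin⟩ := Finset.exists_min_image C (fun z => dt z e') hCne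
  have hau := (hC u).1 hu
  have had := (hC d).1 hd
  have huS : u ∈ S := Hg_mem haS hau
  have hdS : d ∈ S := Hg_mem haS had
  have hud := hTB S h.gen e' hgen u huS d hdS ((Hg_rtg_symm hau).trans had)
    (fun z hz => humax z ((hC z).2 (hau.trans hz)))
    (fun z hz => hdmin z ((hC z).2 (hau.trans hz)))
  obtain ⟨i, hi⟩ := (h.mem u huS u).1 ⟨huS, rfl⟩
  have hud' : ReflTransGen (Hs S) (p (cl u) i) d := by rw [← hi]; exact hud
  obtain ⟨j, hij, hj⟩ := path_down h huS hud'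
  have k1 := near_dt h huS i e'
  have k2 := near_dt h huS j e'
  rw [← hi] at k1
  rw [← hj] at k2
  have k3 := hmax i j hij
  have k4 := humax b ((hC b).2 hpath)
  have hj₀ : p (cl x) j₀ ∈ C := (hC _).2 (Hs_Hg (path_up hSP h hx h0))
  have k5 := hdmin _ hj₀
  have k6 := near_dt h hy i₀ e'
  have k7 := near_dt h hx j₀ e'
  rw [← hb] at k6
  rw [dt_sub_l] at hlev
  have hpos : 0 ≤ δ * ‖e'‖ := mul_nonneg h.pos.le (norm_nonneg _)
  rw [abs_le] at k1 k2 k6 k7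
  nlinarith [k1.1, k1.2, k2.1, k2.2, k6.1, k6.2, k7.1, k7.2]

end main

theorem cl_st (hSP : SpS) (hDI : DiS) (hTB : TbS) : ClS := by
  classical
  intro n c δ e S cl p t h
  obtain ⟨e', hgen, hdir⟩ := direction hDI h
  obtain ⟨x₀, hx₀⟩ := h.ne
  obtain ⟨k₀, -⟩ := (h.mem x₀ hx₀ x₀).1 ⟨hx₀, rfl⟩
  obtain ⟨⟨i₀, j₀⟩, hmem, hmax⟩ := Finset.exists_max_image
    ((Finset.univ : Finset (Fin n × Fin n)).filter fun z =>
      ReflTransGen (fun i j => ‖c i - c j‖ < 2) z.1 z.2)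
    (fun z => dt (c z.1) e' - dt (c z.2) e')
    ⟨(k₀, k₀), by
      rw [Finset.mem_filter]; exact ⟨Finset.mem_univ _, ReflTransGen.refl⟩⟩
  rw [Finset.mem_filter] at hmem
  have h0 : ReflTransGen (fun i j => ‖c i - c j‖ < 2) i₀ j₀ := hmem.2
  have hmax' : ∀ i j, ReflTransGen (fun i j => ‖c i - c j‖ < 2) i j →
      dt (c i) e' - dt (c j) e' ≤ dt (c i₀) e' - dt (c j₀) e' := by
    intro i j hij
    exact hmax (i, j) (by rw [Finset.mem_filter]; exact ⟨Finset.mem_univ _, hij⟩)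
  have hinj : Set.InjOn (fun v => p v i₀) (S.image cl : Finset ℂ) := by
    intro v hv w hw hvw
    rw [Finset.mem_coe, Finset.mem_image] at hv hw
    obtain ⟨x, hx, rfl⟩ := hv
    obtain ⟨y, hy, rfl⟩ := hw
    simp only at hvw
    rw [← (p_mem h hx i₀).2, ← (p_mem h hy i₀).2, hvw]
  refine ⟨(S.image cl).image fun v => p v i₀, ?_, ?_, ?_⟩
  · intro z hz
    rw [Finset.mem_image] at hz
    obtain ⟨v, hv, rfl⟩ := hz
    rw [Finset.mem_image] at hv
    obtain ⟨x, hx, rfl⟩ := hv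
    exact (p_mem h hx i₀).1
  · rw [Finset.card_image_of_injOn hinj, Finset.card_eq_sum_card_image cl S]
    have hfib : ∀ v ∈ S.image cl, (S.filter fun y => cl y = v).card = n := by
      intro v hv
      rw [Finset.mem_image] at hv
      obtain ⟨x, hx, rfl⟩ := hv
      have : (S.filter fun y => cl y = cl x) = Finset.univ.image (p (cl x)) := by
        ext y
        rw [Finset.mem_filter, Finset.mem_image, h.mem x hx y]
        constructor
        · rintro ⟨i, hi⟩; exact ⟨i, Finset.mem_univ _, hi.symm⟩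
        · rintro ⟨i, -, hi⟩; exact ⟨i, hi.symm⟩
      rw [this, Finset.card_image_of_injective _ (h.inj x hx), Finset.card_univ, Fintype.card_fin]
    rw [Finset.sum_congr rfl hfib, Finset.sum_const, smul_eq_mul, mul_comm]
  · intro a ha b hb hab hpath
    rw [Finset.mem_image] at ha hb
    obtain ⟨v, hv, rfl⟩ := ha
    obtain ⟨w, hw, rfl⟩ := hb
    rw [Finset.mem_image] at hv hw
    obtain ⟨x, hx, rfl⟩ := hv
    obtain ⟨y, hy, rfl⟩ := hw
    have hne : cl x ≠ cl y := fun he => hab (by rw [he])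
    have hd := hdir x hx y hy hne
    rcases lt_abs.1 hd with hd | hd
    · exact no_path hSP hTB h hgen h0 hmax' hy hx hd (Hg_rtg_symm hpath)
    · refine no_path hSP hTB h hgen h0 hmax' hx hy ?_ hpath
      have : dt (t (cl y) - t (cl x)) e' = -dt (t (cl x) - t (cl y)) e' := by
        rw [dt_sub_l, dt_sub_l]; ring
      rw [this]; exact hd

end FT58.AS.H02
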