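import Pool.Agent.Lib.MP_49fa77_co.H30.Iface3
import Pool.Agent.Lib.MP_49fa77_co.H65.To

/-!
# Row T2: the total is nonnegative, with the new bound
-/

set_option autoImplicit false

namespace FT58.AS.H02

open Real MeasureTheory Set Metric Filter Relation FT58 FT58.AS

section
open Classical

/-- Row T2. -/
theorem t2_st (hRG : RgS) (hRA : RaS) (hCU : CuS) (hGS : GsS) (hNM : NmS) (hCT : CtS)
    (hCL : ClS) (hGE : GeS) : T2S := by
  obtain ⟨γ, hγ, N₀, hN₀, hnm⟩ := hNM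
  refine ⟨γ, hγ, N₀, hN₀, fun n hn => ?_⟩
  obtain ⟨hD, hD1, hfin⟩ := hnm n hn (Dn γ n) rfl
  set D := Dn γ n with hDd
  have hD0 : 0 ≤ D := by linarith
  refine ⟨hD0, fun c => ?_⟩
  obtain ⟨δ₀, hδ₀, hge⟩ := hGE n c
  refine ⟨δ₀, hδ₀, ?_⟩
  intro δ e S cl p t hδ he hLb hLb2
  have hG : Gen S := hLb.gen
  have hne : S.Nonempty := hLb.ne
  obtain ⟨J, hJS, hJ, hJc⟩ := hCL n c δ e S cl p t hLb
  have hcard : 0 < S.card := Finset.card_pos.mpr hne
  have hn1 : 1 ≤ n := hN₀.trans hn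
  have hJ0 : 0 < J.card := by
    rcases Nat.eq_zero_or_pos J.card with h | h
    · rw [h, mul_zero] at hJ
      omega
    · exact h
  have hcount := hCT S hG hne J hJS hJc
  have hnR : (1 : ℝ) ≤ n := by exact_mod_cast hn1
  have hmR : (0 : ℝ) < J.card := by exact_mod_cast hJ0
  have hJR : (S.card : ℝ) = n * J.card := by
    rw [← hJ]
    push_cast
    rfl
  -- reduction to the state
  have h1 := asg2_le hD0 hG (MX_Rg S S).toFam (by
    intro x y z hT s1 s2 s3
    exact MX_short (Finset.Subset.refl S) hT hT.1 hT.2.1 hT.2.2.1 s1 s2 s3)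
  rw [H65.FV_self] at h1
  obtain ⟨E, T, hst, hfv, hcnt, hgood, hTM, hlen⟩ := hCU D S hD0 hG
  have hb := hRG D S T hD hD1 hst.fam hst.bd hgood
  have hb2 := hRA D S T hD0 hD1 hst.fam hst.bd hgood
  obtain ⟨hg1, hg2⟩ := hGS D S (fun c q => E c q ∧ ¬ Lf T c q) hD hD1 (by
    intro x y h
    have hse := hst.se _ _ h.1
    exact ⟨hse.1, hse.2.2⟩)
  have hge2 := hge δ e S cl p t hδ he hLb hLb2
  unfold FV at hfv h1
  -- areas
  have hX : sT S T XX ≤ sT S (MX S S) XX := by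
    unfold sT
    refine Finset.sum_le_sum fun x _ => Finset.sum_le_sum fun y _ =>
      Finset.sum_le_sum fun z _ => ?_
    by_cases h : T x y z
    · rw [if_pos h, if_pos (hTM _ _ _ h)]
    · rw [if_neg h]
      split_ifs with h2
      · exact (Tr_XX ((MX_Rg S S).tr _ _ _ h2)).le
      · exact le_rfl
  -- lengths
  have hln : ∀ (X : ℂ → ℂ → Prop), 0 ≤ sE S X ln := by
    intro X
    unfold sE
    refine Finset.sum_nonneg fun x _ => Finset.sum_nonneg fun y _ => ?_
    split_ifs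
    · exact norm_nonneg _
    · exact le_rfl
  have hB0 : (nE S (fun c q => E c q ∧ ¬ Lf T c q) : ℝ) = 0 →
      sE S (fun c q => E c q ∧ ¬ Lf T c q) ln = 0 := by
    intro h
    have h2 : sE S (fun c q => E c q ∧ ¬ Lf T c q) ln
        ≤ sE S (fun c q => E c q ∧ ¬ Lf T c q) (fun _ _ => 2) := by
      apply sE_mono
      intro x _ y _ hxy
      have hs := (hst.se _ _ hxy.1).2.2
      unfold Sh at hs
      unfold ln
      linarith
    rw [sE_const, h, mul_zero] at h2
    exact le_antisymm h2 (hln _)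
  -- counting
  have hcntR : (3 * nE S (fun c q => E c q ∧ ¬ Lf T c q) + nE S (Lf T) : ℝ)
      = 3 * nE S (Ou S) + nE S (Lf (MX S S)) := by
    exact_mod_cast hcnt
  have hOu : (nE S (Ou S) : ℝ) = nE S (fun c q => Se S c q ∧ ¬ Lf (MX S S) c q) := rfl
  have h5 : (nE S (Lf T) / 3 : ℝ) + nE S (fun c q => E c q ∧ ¬ Lf T c q) + 2 * J.card
      ≤ 2 * S.card := by
    rw [hOu] at hcntR
    linarith
  have h6 : sT S (MX S S) XX / 3 ≤ (S.card : ℝ) ∨
      (J.card : ℝ) * (sT S (MX S S) XX / 3)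
        ≤ 6 * sE S (fun c q => E c q ∧ ¬ Lf T c q) ln ^ 2 := by
    rcases hge2 with h | h
    · exact Or.inl h
    · right
      rw [hJR] at h
      have h7 : sE S (Ou S) ln ^ 2 ≤ sE S (fun c q => E c q ∧ ¬ Lf T c q) ln ^ 2 :=
        pow_le_pow_left₀ (hln _) hlen 2
      have h8 : (n : ℝ) * ((J.card : ℝ) * (sT S (MX S S) XX / 3))
          ≤ n * (6 * sE S (Ou S) ln ^ 2) := by linarith
      have h9 := le_of_mul_le_mul_left h8 (by linarith)
      linarith
  have hd1 : 0 ≤ 1 - D := by linarith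
  have key := hfin (S.card : ℝ) (J.card : ℝ) (nE S (Lf T) / 3 : ℝ)
    (nE S (fun c q => E c q ∧ ¬ Lf T c q) : ℝ) (sE S (Lf T) (val2 D S))
    (sE S (fun c q => E c q ∧ ¬ Lf T c q) (gs D)) (sT S (MX S S) XX / 3)
    (sE S (fun c q => E c q ∧ ¬ Lf T c q) ln) hmR hJR (by positivity) (by positivity) h5
    (by linarith) (by
      have h10 := mul_le_mul_of_nonneg_left hX hd1
      nlinarith) hg1 hg2 (hln _) hB0 h6
  linarith

end

end FT58.AS.H02
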